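import Mathlib
import Pool.Agent.Lib.MP_4ffbf9_nt.MA.Final

set_option autoImplicit false

namespace Pool.Agent.Results.MP_4ffbf9_nt.CheapLogsAlg

open Finset Pool.Agent.Lib.MP_4ffbf9_nt.MA

/-- Lower bound for linear forms in logarithms of algebraic numbers in which every logarithm
that is close to zero costs `K i * (log B) ^ 2` instead of the height of the number. -/
theorem result :
    ∀ m D : ℕ, ∃ c : ℝ, 0 < c ∧ ∀ (ℓ : Fin m → ℂ) (a K : Fin m → ℝ) (b : Fin m → ℤ) (o : Fin m)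
      (N : Finset (Fin m)) (B : ℝ),
      (∀ i, 1 ≤ a i ∧ ‖ℓ i‖ ≤ a i ∧ ∃ P : Polynomial ℤ, P ≠ 0 ∧ P.natDegree ≤ D ∧
        (∀ j, |(P.coeff j : ℝ)| ≤ Real.exp (a i)) ∧
        Polynomial.aeval (Complex.exp (ℓ i)) P = 0) →
      3 ≤ B → (∀ i, |(b i : ℝ)| ≤ B) → o ∉ N →
      (∀ i ∈ N, a i ≤ a o ∧ 1 ≤ K i ∧ ‖ℓ i‖ ≤ B * Real.exp (-(a i / K i))) →
      ∑ i, (b i : ℂ) * ℓ i ≠ 0 →
      Real.exp (-(c * (∏ i ∈ Nᶜ, a i) * (∏ i ∈ N, K i) * Real.log B ^ (2 * N.card + 2))) ≤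
        ‖∑ i, (b i : ℂ) * ℓ i‖ := by
  intro m D
  obtain ⟨d, ρ, hρ, hN⟩ := num m D
  obtain ⟨c, hc, h⟩ := main1 d m
  refine ⟨c * ρ ^ m, by positivity, fun ℓ a K b o N B ha hB hb ho hn hΛ => ?_⟩
  obtain ⟨F, dn, hF, h1⟩ := hN (Fin m) ℓ a (Fintype.card_fin m).le ha
  refine le_trans (Real.exp_le_exp.2 (neg_le_neg (le_of_eq ?_))) (h F (Fin m) dn ℓ
    (fun i => ρ * a i) (fun i => ρ * K i) b o N B hF (Fintype.card_fin m).le h1 ho hB hb
    (fun i hi => ⟨mul_le_mul_of_nonneg_left (hn i hi).1 (by linarith),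
      one_le_mul_of_one_le_of_one_le hρ (hn i hi).2.1, ?_⟩) hΛ)
  · rw [prod_mul_distrib, prod_mul_distrib, prod_const, prod_const, mul_mul_mul_comm, ← pow_add,
      card_compl_add_card, Fintype.card_fin]
    ring
  · rw [mul_div_mul_left _ _ (by linarith)]
    exact (hn i hi).2.2

end Pool.Agent.Results.MP_4ffbf9_nt.CheapLogsAlg
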