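import Mathlib
import Pool.Agent.Lib.MP_4ffbf9_nt.B2.All

set_option autoImplicit false

namespace Pool.Agent.Results.MP_4ffbf9_nt.GapDiv

open Pool.Agent.Lib.MP_4ffbf9_nt.B Pool.Agent.Lib.MP_4ffbf9_nt.B2

/-- A lower bound for the gap between two products of small spread and arbitrary degrees, in terms
of a divisor `g` of the first degree; the constant depends only on the number of distinct factors
and the spread bound. -/
theorem result :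
    ∀ (R : ℕ) (M θ : ℝ), θ < 1 → ∃ κ : ℕ,
      ∀ (A C g n m : ℕ) (x : Fin n → ℕ) (z : Fin m → ℕ) (j : Fin m),
      0 < A → 0 < C → 3 ≤ g → 0 < n → g ∣ n → (∀ i, 0 < x i) → (∀ i, 0 < z i) →
      (Finset.univ.image x).card ≤ R → (Finset.univ.image z).card ≤ R →
      (∀ i k, (x i : ℝ) ≤ x k + M * (x k : ℝ) ^ θ) → (∀ i k, (z i : ℝ) ≤ z k + M * (z k : ℝ) ^ θ) →
      A * ∏ i, x i ≠ C * ∏ i, z i →
      ((∏ i, z i : ℕ) : ℝ) * Real.exp (-((κ : ℝ) * Real.log ((g : ℝ) * A * C) ^ κ *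
          (1 + Real.log ((∏ i, z i : ℕ) : ℝ) / g) *
          (if g ∣ m then 1 else Real.log (2 * (z j : ℝ))))) ≤
        |(A : ℝ) * ((∏ i, x i : ℕ) : ℝ) - (C : ℝ) * ((∏ i, z i : ℕ) : ℝ)| := by
  intro R M θ hθ
  obtain ⟨κ₁, h₁⟩ := gap R M θ hθ
  obtain ⟨κ₂, h₂⟩ := gap2 R M θ hθ
  refine ⟨κ₁ + κ₂, fun A C g n m x z j hA hC hg hn gn hx hz rx rz sx sz hne => ?_⟩
  have hm : 0 < m := j.pos
  obtain ⟨i, v, a, -, h1, h2, h3⟩ := stShape R n M θ x hn rx sx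
  obtain ⟨l, w, c, k0, k1, k2, k3⟩ := stShape R m M θ z hm rz sz
  have L1 : 1 ≤ Real.log ((g : ℝ) * A * C) := by
    have a1 : (3 : ℝ) ≤ (g : ℝ) * A * C := by
      exact_mod_cast hg.trans ((Nat.le_mul_of_pos_right _ hA).trans (Nat.le_mul_of_pos_right _ hC))
    rw [Real.le_log_iff_exp_le (by linarith)]
    linarith [Real.exp_one_lt_d9]
  have L2 : ∀ k ≤ κ₁ + κ₂, (k : ℝ) * Real.log ((g : ℝ) * A * C) ^ k ≤
      ((κ₁ + κ₂ : ℕ) : ℝ) * Real.log ((g : ℝ) * A * C) ^ (κ₁ + κ₂) := fun k hk => by gcongr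
  have L3 : 0 ≤ 1 + Real.log ((∏ i, z i : ℕ) : ℝ) / g :=
    add_nonneg zero_le_one (div_nonneg (Real.log_natCast_nonneg _) (Nat.cast_nonneg _))
  have px : Pr M θ g (x i) v a := ⟨hx i, h1, Or.inr (h2 ▸ ⟨gn, hn⟩)⟩
  split_ifs with gm
  · refine le_trans ?_ (h₁ A C g (x i) (z l) _ _ v a w c hA hC hg px
      ⟨hz l, k1, Or.inr (k2 ▸ ⟨gm, hm⟩)⟩ h3.symm k3.symm hne)
    rw [mul_one]
    gcongr ?_ * Real.exp (-(?_ * _))
    exact L2 _ (by omega)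
  · refine le_trans ?_ (h₂ A C g (x i) (z l) _ _ v a w c hA hC hg px (hz l) k1 (k2 ▸ gm) h3.symm
      k3.symm hne)
    have z1 : (1 : ℝ) ≤ z l := by exact_mod_cast hz l
    have z2 : (z l : ℝ) ≤ z j := by exact_mod_cast k0 j
    have z3 : 0 ≤ Real.log (2 * (z l : ℝ)) := Real.log_nonneg (by linarith)
    gcongr ?_ * Real.exp (-(?_ * _ * Real.log ?_))
    · exact L2 _ (by omega)
    · linarith

end Pool.Agent.Results.MP_4ffbf9_nt.GapDiv
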