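import Mathlib
import Pool.Agent.Lib.MP_4ffbf9_nt.PR.Final

set_option autoImplicit false

namespace Pool.Agent.Results.MP_4ffbf9_nt.LongProducts

/-- `A X + B Y = C Z` in products with boundedly many distinct factors and commensurable degrees
`g k * n`: for large `n` the powers `x ^ g` of the factors fill an interval `[l, h]` longer than
`n * h ^ (1 - ε)`; in particular `n < h ^ ε`. -/
theorem result (A B C R : ℕ) (Q M ε : ℝ) (hA : 0 < A) (hB : 0 < B) (hC : 0 < C) (hε : 0 < ε) :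
    ∃ n₀ : ℕ, ∀ (n l h : ℕ) (W g a : Fin 3 → ℕ) (x : (k : Fin 3) → Fin (g k * n) → ℕ), n₀ ≤ n →
      A * W 0 + B * W 1 = C * W 2 →
      (Nat.gcd (W 0) (W 1) : ℝ) / (∏ p ∈ (Nat.gcd (W 0) (W 1)).primeFactors, (p : ℝ)) ≤ Q →
      2 ^ n ≤ W 0 * W 1 * W 2 →
      (∀ k, W k = a k * ∏ i, x k i ∧ 0 < g k ∧ g k ≤ R ∧ 0 < a k ∧
        (a k : ℝ) ≤ Real.exp ((n : ℝ) ^ (1 - ε)) ∧ (Finset.univ.image (x k)).card ≤ R ∧
        (∀ i, 0 < x k i ∧ l ≤ x k i ^ g k ∧ x k i ^ g k ≤ h) ∧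
        ∀ i j, (x k i : ℝ) ≤ x k j + M * (x k j : ℝ) ^ (1 - ε)) →
      (n : ℝ) * (h : ℝ) ^ (1 - ε) < (h : ℝ) - l :=
  Pool.Agent.Lib.MP_4ffbf9_nt.PR.final A B C R Q M ε hA hB hC hε

end Pool.Agent.Results.MP_4ffbf9_nt.LongProducts
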