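import Mathlib
import Pool.Agent.Lib.MP_4ffbf9_nt.JW.Main

set_option autoImplicit false

namespace Pool.Agent.Results.MP_4ffbf9_nt.NearDirection

open Pool.Agent.Lib.MP_4ffbf9_nt

/-- Finiteness, over all degrees, of the solutions in products with boundedly many distinct factors
whose three bases lie within `O(√b)` of a fixed rational direction `(α : β : γ)`. -/
theorem result :
    ∀ (A B C R α β γ : ℕ) (Q M : ℝ), 0 < A → 0 < B → 0 < C → 0 < α → 0 < β → 0 < γ →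
      {t : ℕ × ℕ × ℕ |
        A * t.1 + B * t.2.1 = C * t.2.2 ∧
        ∃ (nX nY nZ bX bY bZ sX sY sZ : ℕ)
          (x : Fin nX → ℕ) (y : Fin nY → ℕ) (z : Fin nZ → ℕ),
          0 < bX ∧ 0 < bY ∧ 0 < bZ ∧
          (∀ i, bX ≤ x i ∧ x i ≤ bX + sX) ∧ (∃ i, x i = bX) ∧ (∃ i, x i = bX + sX) ∧
          (∀ i, bY ≤ y i ∧ y i ≤ bY + sY) ∧ (∃ i, y i = bY) ∧ (∃ i, y i = bY + sY) ∧
          (∀ i, bZ ≤ z i ∧ z i ≤ bZ + sZ) ∧ (∃ i, z i = bZ) ∧ (∃ i, z i = bZ + sZ) ∧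
          (∏ i, x i) = t.1 ∧ (∏ i, y i) = t.2.1 ∧ (∏ i, z i) = t.2.2 ∧
          ((sX : ℝ) ^ 2 / (bX : ℝ) ≤ M) ∧
          ((sY : ℝ) ^ 2 / (bY : ℝ) ≤ M) ∧
          ((sZ : ℝ) ^ 2 / (bZ : ℝ) ≤ M) ∧
          ((1 + (sX : ℝ)) / (nX : ℝ) + (1 + (sY : ℝ)) / (nY : ℝ)
            + (1 + (sZ : ℝ)) / (nZ : ℝ) ≤ 1) ∧
          ((Nat.gcd t.1 t.2.1 : ℝ) /
            (∏ p ∈ (Nat.gcd t.1 t.2.1).primeFactors, (p : ℝ)) ≤ Q) ∧
          (Finset.univ.image x).card ≤ R ∧ (Finset.univ.image y).card ≤ R ∧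
          (Finset.univ.image z).card ≤ R ∧
          ((γ : ℝ) * bX - α * bZ) ^ 2 ≤ M * bZ ∧
          ((γ : ℝ) * bY - β * bZ) ^ 2 ≤ M * bZ}.Finite := by
  intro A B D R α β γ Q M hA hB hD hα hβ hγ
  obtain ⟨L, hL⟩ := JW.base_bound A B D R α β γ Q M hA hB hD hα hβ hγ
  obtain ⟨T, hT⟩ : ∃ T : ℝ, T = (1 + α + β) * L + 1 + M * L := ⟨_, rfl⟩
  refine (smooth_finite hA hB hD ⌈Q⌉₊ ⌈T + 1 + M * T⌉₊).subset ?_
  rintro ⟨X, Y, Z⟩ ⟨he, nX, nY, nZ, bX, bY, bZ, sX, sY, sZ, x, y, z, hbX, hbY, hbZ, hx, ⟨iX, -⟩, -,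
    hy, ⟨iY, -⟩, -, hz, ⟨iZ, -⟩, -, hX, hY, hZ, mX, mY, mZ, hσ, hQ, cX, cY, cZ, d1, d2⟩
  have PX : JW.Pr R M nX bX sX X x := ⟨hbX, iX.pos, hx, hX, mX, cX⟩
  have PY : JW.Pr R M nY bY sY Y y := ⟨hbY, iY.pos, hy, hY, mY, cY⟩
  have PZ : JW.Pr R M nZ bZ sZ Z z := ⟨hbZ, iZ.pos, hz, hZ, mZ, cZ⟩
  have h1 : (bZ : ℝ) ≤ L := by
    exact_mod_cast hL X Y Z _ _ _ _ _ _ _ _ _ x y z PX PY PZ he hσ hQ d1 d2
  have h2 := mul_le_mul_of_nonneg_left h1 PX.M0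
  have h3 : (0 : ℝ) ≤ M * L := mul_nonneg PX.M0 (by positivity)
  have a0 : (0 : ℝ) ≤ α * L := by positivity
  have b0 : (0 : ℝ) ≤ β * L := by positivity
  have u : ∀ {a b : ℕ}, ((γ : ℝ) * b - a * bZ) ^ 2 ≤ M * bZ → (b : ℝ) ≤ a * L + 1 + M * L :=
    fun {a b} h => by
      have e1 : (b : ℝ) ≤ γ * b := by exact_mod_cast Nat.le_mul_of_pos_left b hγ
      have e2 := mul_le_mul_of_nonneg_left h1 (Nat.cast_nonneg (α := ℝ) a)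
      nlinarith [sq_nonneg ((γ : ℝ) * b - a * bZ - 1)]
  have L0 : (0 : ℝ) ≤ L := by positivity
  refine ⟨PX.pos, PY.pos, he, JW.gcd_le hQ, fun p hp hpd => ?_⟩
  rcases hpd with h | h | h
  · exact PX.prime_le (by linarith [u d1]) hp h
  · exact PY.prime_le (by linarith [u d2]) hp h
  · exact PZ.prime_le (by linarith) hp h

end Pool.Agent.Results.MP_4ffbf9_nt.NearDirection
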