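import Mathlib
import Pool.Agent.Lib.MP_4ffbf9_nt.Param

set_option autoImplicit false

namespace Pool.Agent.Results.MP_4ffbf9_nt.PolyBases

open Polynomial Pool.Agent.Lib.MP_4ffbf9_nt

/-- Finiteness of the solutions whose three bases are values, at one integer, of nonconstant
integer polynomials of small height; degrees of the products are unrestricted. -/
theorem result :
    ∀ (A B C : ℕ) (Q K : ℝ), 0 < A → 0 < B → 0 < C →
      {t : ℕ × ℕ × ℕ |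
        A * t.1 + B * t.2.1 = C * t.2.2 ∧
        ∃ (nX nY nZ bX bY bZ sX sY sZ : ℕ)
          (x : Fin nX → ℕ) (y : Fin nY → ℕ) (z : Fin nZ → ℕ),
          0 < bX ∧ 0 < bY ∧ 0 < bZ ∧
          (∀ i, bX ≤ x i ∧ x i ≤ bX + sX) ∧ (∃ i, x i = bX) ∧ (∃ i, x i = bX + sX) ∧
          (∀ i, bY ≤ y i ∧ y i ≤ bY + sY) ∧ (∃ i, y i = bY) ∧ (∃ i, y i = bY + sY) ∧
          (∀ i, bZ ≤ z i ∧ z i ≤ bZ + sZ) ∧ (∃ i, z i = bZ) ∧ (∃ i, z i = bZ + sZ) ∧
          (∏ i, x i) = t.1 ∧ (∏ i, y i) = t.2.1 ∧ (∏ i, z i) = t.2.2 ∧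
          ((1 + (sX : ℝ)) / (nX : ℝ) + (1 + (sY : ℝ)) / (nY : ℝ)
            + (1 + (sZ : ℝ)) / (nZ : ℝ) ≤ 1) ∧
          ((Nat.gcd t.1 t.2.1 : ℝ) /
            (∏ p ∈ (Nat.gcd t.1 t.2.1).primeFactors, (p : ℝ)) ≤ Q) ∧
          ∃ (τ H : ℕ) (f g h : ℤ[X]),
            0 < f.natDegree ∧ 0 < g.natDegree ∧ 0 < h.natDegree ∧
            f.eval (τ : ℤ) = bX ∧ g.eval (τ : ℤ) = bY ∧ h.eval (τ : ℤ) = bZ ∧
            2 ≤ H ∧ (∀ i, |f.coeff i| ≤ H ∧ |g.coeff i| ≤ H ∧ |h.coeff i| ≤ H) ∧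
            sX ≤ H ∧ sY ≤ H ∧ sZ ≤ H ∧
            (H : ℝ) ^ (30000 * ((1 + sX) * f.natDegree + (1 + sY) * g.natDegree +
              (1 + sZ) * h.natDegree)) ≤ K * τ}.Finite := by
  intro A B D Q K hA hB hD
  set q := ⌈Q⌉₊ with hq
  set T := ⌈K⌉₊ + (6 * (A + B + D) ^ 3 * ((A + B) * (q + 1) * D)) ^ 2 with hT
  set Bd := ⌈K⌉₊ * T with hBd
  refine (smooth_finite hA hB hD q ((Bd + 1) * Bd * (T + 1) ^ Bd + Bd)).subset ?_
  rintro ⟨X, Y, Z⟩ ⟨heq, nX, nY, nZ, bX, bY, bZ, sX, sY, sZ, x, y, z, hbX, hbY, hbZ, hx, ⟨iX, -⟩, -,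
    hy, ⟨iY, -⟩, -, hz, ⟨iZ, -⟩, -, hX, hY, hZ, hσ, hQ, τ, H, f, g, h, hf, hg, hh, hft, hgt, hht, hH,
    hc, hsX, hsY, hsZ, hK⟩
  simp only at heq hX hY hZ hQ
  have hX0 : 0 < X := by rw [← hX]; exact Finset.prod_pos fun i _ => lt_of_lt_of_le hbX (hx i).1
  have hY0 : 0 < Y := by rw [← hY]; exact Finset.prod_pos fun i _ => lt_of_lt_of_le hbY (hy i).1
  have hq' : Nat.gcd X Y ≤ q * ∏ p ∈ (Nat.gcd X Y).primeFactors, p := by
    have h0 : (0 : ℝ) < ∏ p ∈ (Nat.gcd X Y).primeFactors, (p : ℝ) :=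
      Finset.prod_pos fun p hp => by exact_mod_cast (Nat.prime_of_mem_primeFactors hp).pos
    rw [div_le_iff₀ h0] at hQ
    have h1 := hQ.trans (mul_le_mul_of_nonneg_right (Nat.le_ceil Q) h0.le)
    rw [← Nat.cast_prod] at h1
    exact_mod_cast h1
  set N := (1 + sX) * f.natDegree + (1 + sY) * g.natDegree + (1 + sZ) * h.natDegree with hN
  have hK' : H ^ (30000 * N) ≤ ⌈K⌉₊ * τ := by
    have h1 := hK.trans (mul_le_mul_of_nonneg_right (Nat.le_ceil K) (Nat.cast_nonneg τ))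
    exact_mod_cast h1
  have hτ : τ ≤ T := by
    by_contra hτ
    rw [not_le] at hτ
    refine large_false (t := (τ : ℤ)) hA hB hD heq hq' x y z iX.pos iY.pos iZ.pos hbX hbY hbZ
      hx hy hz hX hY hZ hσ f g h hf hg hh hft hgt hht hH hc hsX hsY hsZ ?_ ?_
    · have h1 : H ^ (30000 * N) ≤ τ ^ 2 := by
        rw [sq]
        exact hK'.trans (Nat.mul_le_mul_right _ (le_trans (Nat.le_add_right _ _) hτ.le))
      exact_mod_cast h1
    · have h1 : (6 * (A + B + D) ^ 3 * ((A + B) * (q + 1) * D)) ^ 2 < τ :=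
        lt_of_le_of_lt (Nat.le_add_left _ _) hτ
      exact_mod_cast h1
  have hHB : H ^ (30000 * N) ≤ Bd := hK'.trans (Nat.mul_le_mul_left _ hτ)
  have hd0 : f.natDegree ≤ (1 + sX) * f.natDegree := Nat.le_mul_of_pos_left _ (by omega)
  have hd1 : g.natDegree ≤ (1 + sY) * g.natDegree := Nat.le_mul_of_pos_left _ (by omega)
  have hd2 : h.natDegree ≤ (1 + sZ) * h.natDegree := Nat.le_mul_of_pos_left _ (by omega)
  have hH1 : H ≤ Bd := le_trans (Nat.le_self_pow (by omega) H) hHB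
  have hN1 : N ≤ Bd := by
    have h1 : 30000 * N < 2 ^ (30000 * N) := Nat.lt_two_pow_self
    have h2 : 2 ^ (30000 * N) ≤ H ^ (30000 * N) := Nat.pow_le_pow_left hH _
    exact le_trans (Nat.le_mul_of_pos_left N (by norm_num)) (h1.le.trans (h2.trans hHB))
  refine ⟨hX0, hY0, heq, hq', fun p hp hpd => ?_⟩
  rcases hpd with hpd | hpd | hpd
  · exact prime_le_of_small x f hbX hx hsX hH1 (by omega) (fun i => (hc i).1) hft hτ hp
      (by rw [hX]; exact hpd)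
  · exact prime_le_of_small y g hbY hy hsY hH1 (by omega) (fun i => (hc i).2.1) hgt hτ hp
      (by rw [hY]; exact hpd)
  · exact prime_le_of_small z h hbZ hz hsZ hH1 (by omega) (fun i => (hc i).2.2) hht hτ hp
      (by rw [hZ]; exact hpd)

end Pool.Agent.Results.MP_4ffbf9_nt.PolyBases
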