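import Mathlib
import Pool.Agent.Lib.MP_4ffbf9_nt.EF.Final

set_option autoImplicit false

namespace Pool.Agent.Results.MP_4ffbf9_nt.SubexpProducts

/-- `A X + B Y = C Z` in products with at most `R` distinct factors and commensurable degrees
`g k * n`: for large `n` the powers `x ^ g` of the factors fill an interval `[l, h]` longer than
`n * h ^ (1 - min n (log h) ^ (-c))`, with `c > 0` depending only on `R`. -/
theorem result (R : ℕ) : ∃ c : ℝ, 0 < c ∧ ∀ (A B C : ℕ) (Q M ε : ℝ), 0 < A → 0 < B → 0 < C →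
    0 < ε → ∃ n₀ : ℕ,
    ∀ (n l h : ℕ) (W g a : Fin 3 → ℕ) (x : (k : Fin 3) → Fin (g k * n) → ℕ), n₀ ≤ n →
      A * W 0 + B * W 1 = C * W 2 →
      (Nat.gcd (W 0) (W 1) : ℝ) / (∏ p ∈ (Nat.gcd (W 0) (W 1)).primeFactors, (p : ℝ)) ≤ Q →
      2 ^ n ≤ W 0 * W 1 * W 2 →
      (∀ k, W k = a k * ∏ i, x k i ∧ 0 < g k ∧ g k ≤ R ∧ 0 < a k ∧
        (a k : ℝ) ≤ Real.exp ((n : ℝ) ^ (1 - ε)) ∧ (Finset.univ.image (x k)).card ≤ R ∧
        (∀ i, 0 < x k i ∧ l ≤ x k i ^ g k ∧ x k i ^ g k ≤ h) ∧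
        ∀ i j, (x k i : ℝ) ≤ x k j + M * (x k j : ℝ) ^ (1 - ε)) →
      (n : ℝ) * (h : ℝ) ^ (1 - min (n : ℝ) (Real.log h) ^ (-c)) < (h : ℝ) - l :=
  Pool.Agent.Lib.MP_4ffbf9_nt.EF.final_eff R

end Pool.Agent.Results.MP_4ffbf9_nt.SubexpProducts
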